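import Mathlib
import Pool.Agent.H309R2.AP3.Peel

/-!
A kernel check for peelable sets in `(ZMod p)^d`, the points being coded by natural numbers.
-/

namespace Pool.Agent.TH413.PL

open Finset Pool.Agent.H309R2.AP3

/-- The code of `2 y - x`. -/
def rf (p : ℕ) : ℕ → ℕ → ℕ → ℕ
  | 0, _, _ => 0
  | d + 1, y, x => (2 * (y % p) + (p - x % p)) % p + p * rf p d (y / p) (x / p)

/-- The point with a given code. -/
def pt (p d : ℕ) (c : ℕ) : Fin d → ZMod p := fun i => ((c / p ^ (i : ℕ) : ℕ) : ZMod p)

/-- The check: no member is the midpoint of two later ones. -/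
def chk (p d : ℕ) : List ℕ → Bool
  | [] => true
  | y :: l => (Nat.blt y (p ^ d)) && !(l.elem y) && (l.all fun x => !(l.elem (rf p d y x))) &&
      chk p d l

lemma pt_tail (p d c : ℕ) (i : Fin d) : pt p (d + 1) c i.succ = pt p d (c / p) i := by
  unfold pt
  rw [Fin.val_succ, pow_succ', Nat.div_div_eq_div_mul]

lemma rf_spec (p : ℕ) (hp : 0 < p) (d : ℕ) : ∀ x y z : ℕ, z < p ^ d →
    pt p d x + pt p d z = pt p d y + pt p d y → z = rf p d y x := by
  induction d with
  | zero =>
    intro x y z hz _
    simp only [pow_zero] at hz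
    simp only [rf]
    omega
  | succ d ih =>
    intro x y z hz h
    have h0 : ((x : ℕ) : ZMod p) + ((z : ℕ) : ZMod p) = (y : ZMod p) + (y : ZMod p) := by
      have := congrFun h 0
      simpa [pt] using this
    have h1 : pt p d (x / p) + pt p d (z / p) = pt p d (y / p) + pt p d (y / p) := by
      funext i
      have := congrFun h i.succ
      simp only [Pi.add_apply, pt_tail] at this
      simpa using this
    have h2 := ih (x / p) (y / p) (z / p) (by
      rw [Nat.div_lt_iff_lt_mul hp, ← pow_succ]; exact hz) h1
    have h3 : z % p = (2 * (y % p) + (p - x % p)) % p := by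
      have h4 : ((z : ℕ) : ZMod p) = ((2 * (y % p) + (p - x % p) : ℕ) : ZMod p) := by
        have hx : x % p ≤ p := (Nat.mod_lt _ hp).le
        rw [Nat.cast_add, Nat.cast_sub hx, Nat.cast_mul, ZMod.natCast_mod, ZMod.natCast_mod,
          ZMod.natCast_self]
        have : ((z : ℕ) : ZMod p) = (y : ZMod p) + (y : ZMod p) - (x : ZMod p) := by
          rw [← h0]; ring
        rw [this]
        push_cast
        ring
      have h5 := (ZMod.natCast_eq_natCast_iff' _ _ p).1 h4
      exact h5
    simp only [rf]
    rw [← h2, ← h3]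
    exact (Nat.mod_add_div z p).symm

lemma pt_inj (p : ℕ) (hp : 0 < p) (d : ℕ) : ∀ x z : ℕ, x < p ^ d → z < p ^ d →
    pt p d x = pt p d z → x = z := by
  intro x z hx hz h
  have h1 := rf_spec p hp d x x z hz (by rw [h])
  have h2 := rf_spec p hp d x x x hx rfl
  rw [h2, ← h1]

/-- The set of points of a list of codes. -/
def st (p d : ℕ) (l : List ℕ) : Finset (Fin d → ZMod p) := (l.map (pt p d)).toFinset

lemma mem_st {p d : ℕ} {l : List ℕ} {v : Fin d → ZMod p} :
    v ∈ st p d l ↔ ∃ c ∈ l, pt p d c = v := by
  simp [st]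

lemma chk_lt {p d : ℕ} {l : List ℕ} (h : chk p d l = true) : ∀ c ∈ l, c < p ^ d := by
  induction l with
  | nil => simp
  | cons y l ih =>
    simp only [chk, Bool.and_eq_true] at h
    intro c hc
    rcases List.mem_cons.1 hc with rfl | hc
    · have := h.1.1.1
      rw [Nat.blt_eq] at this
      exact this
    · exact ih h.2 c hc

lemma card_st {p : ℕ} (hp : 0 < p) {d : ℕ} {l : List ℕ} (h : chk p d l = true) :
    (st p d l).card = l.length := by
  induction l with
  | nil => simp [st]
  | cons y l ih =>
    have h' := h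
    simp only [chk, Bool.and_eq_true] at h'
    have hlt := chk_lt h
    have hy : pt p d y ∉ st p d l := by
      intro hm
      obtain ⟨c, hc, hcy⟩ := mem_st.1 hm
      have := pt_inj p hp d c y (hlt c (List.mem_cons_of_mem _ hc)) (hlt y List.mem_cons_self) hcy
      subst this
      have h2 := h'.1.1.2
      simp only [Bool.not_eq_true', List.elem_eq_contains, List.contains_eq_mem,
        decide_eq_false_iff_not] at h2
      exact h2 hc
    have e : st p d (y :: l) = insert (pt p d y) (st p d l) := by
      ext v
      simp [st]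
    rw [e, card_insert_of_notMem hy, ih h'.2, List.length_cons]

theorem peel_st {p : ℕ} (hp : 0 < p) {d : ℕ} {l : List ℕ} (h : chk p d l = true) :
    Peel (st p d l) := by
  classical
  induction l with
  | nil =>
    have : st p d [] = ∅ := by simp [st]
    rw [this]; exact peel_empty
  | cons y l ih =>
    have h' := h
    simp only [chk, Bool.and_eq_true] at h'
    have hlt := chk_lt h
    intro T hT hne
    by_cases hy : pt p d y ∈ T
    · refine ⟨_, hy, ?_⟩
      intro x hx z hz hxz
      obtain ⟨a, ha, rfl⟩ := mem_st.1 (hT hx)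
      obtain ⟨b, hb, rfl⟩ := mem_st.1 (hT hz)
      have hb' := rf_spec p hp d a y b (hlt b hb) hxz
      have ha' := rf_spec p hp d b y a (hlt a ha) (by rw [add_comm]; exact hxz)
      have hyy := rf_spec p hp d y y y (hlt y List.mem_cons_self) rfl
      rcases List.mem_cons.1 ha with rfl | ha
      · rw [hb', ← hyy]
      · rcases List.mem_cons.1 hb with rfl | hb
        · rw [ha', ← hyy]
        · exfalso
          have h2 := List.all_eq_true.1 h'.1.2 a ha
          simp only [Bool.not_eq_true', List.elem_eq_contains, List.contains_eq_mem,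
            decide_eq_false_iff_not] at h2
          rw [← hb'] at h2
          exact h2 hb
    · apply ih h'.2 T _ hne
      intro v hv
      obtain ⟨c, hc, rfl⟩ := mem_st.1 (hT hv)
      rcases List.mem_cons.1 hc with rfl | hc
      · exact absurd hv hy
      · exact mem_st.2 ⟨c, hc, rfl⟩

end Pool.Agent.TH413.PL
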