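import Pool.Agent.TH413.PF
import Pool.Agent.W862.LE.Lift
import Pool.Agent.W426.LE.EL

/-!
# List edge colourings of the covers of a Pfaffian multigraph with a `p`-group
-/

set_option autoImplicit false

namespace Pool.Agent.TH413.Cov

open Finset Pool.Agent.W426.LE Pool.Agent.W862.LE Pool.Agent.TH413.PF

/-- edge colourings in which the edges at a vertex get different colours -/
def Proper {U E C : Type} (tl hd : E → U) (x : E → C) : Prop :=
  ∀ e e', e ≠ e' → (tl e = tl e' ∨ tl e = hd e' ∨ hd e = tl e' ∨ hd e = hd e') → x e ≠ x e'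

/-- the derived graph (cover) of the voltage assignment `ν` -/
def derived {U E P : Type} [Mul P] (tl hd : E → U) (ν : E → P) : SimpleGraph (U × P) :=
  SimpleGraph.fromRel fun v w => ∃ e, v.1 = tl e ∧ w.1 = hd e ∧ w.2 = v.2 * ν e

/-- the derived multigraph has no parallel edges -/
def NoParallel {U E P : Type} [Group P] (tl hd : E → U) (ν : E → P) : Prop :=
  ∀ e e', e ≠ e' → ¬ (tl e = tl e' ∧ hd e = hd e' ∧ ν e = ν e') ∧
    ¬ (tl e = hd e' ∧ hd e = tl e' ∧ ν e * ν e' = 1)

section

variable {U E D C : Type} {tl hd : E → U} {inc : U → D → E}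

lemma proper_iff [Finite D] (h : Inc tl hd inc) (ρ : D ≃ C) (x : E → C) :
    Abs.Prp inc x ↔ Proper tl hd x := by
  have : Finite C := Finite.of_equiv D ρ
  constructor
  · intro hx e e' hne hu hxx
    have key : ∀ u, (tl e = u ∨ hd e = u) → (tl e' = u ∨ hd e' = u) → False := by
      intro u h1 h2
      obtain ⟨i, rfl⟩ := h.surj u e h1
      obtain ⟨j, rfl⟩ := h.surj u e' h2
      exact hne (congrArg (inc u) ((hx u).1 hxx))
    rcases hu with h1 | h1 | h1 | h1
    · exact key (tl e) (Or.inl rfl) (Or.inl h1.symm)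
    · exact key (tl e) (Or.inl rfl) (Or.inr h1.symm)
    · exact key (hd e) (Or.inr rfl) (Or.inl h1.symm)
    · exact key (hd e) (Or.inr rfl) (Or.inr h1.symm)
  · intro hx u
    have hinj : Function.Injective (fun i => x (inc u i)) := by
      intro i j hij
      by_contra hne
      have hne' : inc u i ≠ inc u j := fun h' => hne (h.inj u h')
      refine hx _ _ hne' ?_ hij
      rcases h.mem u i with h1 | h1 <;> rcases h.mem u j with h2 | h2
      · exact Or.inl (h1.trans h2.symm)
      · exact Or.inr (Or.inl (h1.trans h2.symm))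
      · exact Or.inr (Or.inr (Or.inl (h1.trans h2.symm)))
      · exact Or.inr (Or.inr (Or.inr (h1.trans h2.symm)))
    have h1 : Function.Injective (fun i => ρ.symm (x (inc u i))) := ρ.symm.injective.comp hinj
    have h2 := Finite.injective_iff_surjective.1 h1
    refine ⟨hinj, fun c => ?_⟩
    obtain ⟨i, hi⟩ := h2 (ρ.symm c)
    exact ⟨i, ρ.symm.injective hi⟩

variable [Fintype U] [Fintype E] [Fintype D] [Fintype C]

open Classical in
/-- the signed number of colourings is the number of colourings up to the sign -/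
theorem NN_count (ρ : D ≃ C) (h : Inc tl hd inc) (hpf : Pfaffian tl hd) :
    ∃ ε : ℤ, IsUnit ε ∧ NN ρ inc = ε * (Nat.card {x : E → C // Proper tl hd x} : ℤ) := by
  have e1 : NN ρ inc = ∑ x : E → C, Abs.wt ρ inc x := by
    unfold NN
    refine Finset.sum_congr ?_ fun x _ => rfl
    ext x
    simp only [mem_univ]
  have e2 : ∑ x : E → C, Abs.wt ρ inc x =
      ∑ x ∈ univ.filter (fun x : E → C => Proper tl hd x), Abs.wt ρ inc x := by
    refine (Finset.sum_filter_of_ne fun x _ hx => ?_).symm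
    exact (proper_iff h ρ x).1 ((Abs.wt_ne_zero_iff ρ inc x).1 hx)
  have e3 : Nat.card {x : E → C // Proper tl hd x} =
      (univ.filter (fun x : E → C => Proper tl hd x)).card := by
    rw [Nat.card_eq_fintype_card, Fintype.card_subtype]
  rcases (univ.filter (fun x : E → C => Proper tl hd x)).eq_empty_or_nonempty with h0 | ⟨x0, h0⟩
  · refine ⟨1, isUnit_one, ?_⟩
    rw [e1, e2, e3, h0]
    simp
  · have hx0 : Abs.Prp inc x0 := (proper_iff h ρ x0).2 (Finset.mem_filter.1 h0).2
    refine ⟨Abs.wt ρ inc x0, Abs.wt_unit ρ inc x0 hx0, ?_⟩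
    rw [e1, e2, e3, Finset.sum_congr rfl (fun x hx => wt_eq ρ h hpf x x0
      ((proper_iff h ρ x).2 (Finset.mem_filter.1 hx).2) hx0), Finset.sum_const, nsmul_eq_mul]
    ring

theorem NN_not_dvd (ρ : D ≃ C) (h : Inc tl hd inc) (hpf : Pfaffian tl hd) (p : ℕ)
    (hp : ¬ p ∣ Nat.card {x : E → C // Proper tl hd x}) : ¬ ((p : ℤ) ∣ NN ρ inc) := by
  obtain ⟨ε, hε, h1⟩ := NN_count ρ h hpf
  intro h2
  rw [h1] at h2
  have h3 : (p : ℤ) ∣ (Nat.card {x : E → C // Proper tl hd x} : ℤ) := by
    rcases Int.isUnit_iff.1 hε with h4 | h4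
    · rwa [h4, one_mul] at h2
    · rw [h4] at h2
      simpa using h2
  exact hp (Int.natCast_dvd_natCast.1 h3)

end

section

variable {U E P : Type} [Group P] {tl hd : E → U}

lemma derived_adj (hne : ∀ e, tl e ≠ hd e) (ν : E → P) (v w : U × P) :
    (derived tl hd ν).Adj v w ↔
      (∃ e, v.1 = tl e ∧ w.1 = hd e ∧ w.2 = v.2 * ν e) ∨
      (∃ e, w.1 = tl e ∧ v.1 = hd e ∧ v.2 = w.2 * ν e) := by
  unfold derived
  rw [SimpleGraph.fromRel_adj]
  constructor
  · exact fun h => h.2
  · intro h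
    refine ⟨?_, h⟩
    rintro rfl
    rcases h with ⟨e, h1, h2, -⟩ | ⟨e, h1, h2, -⟩
    · exact hne e (h1.symm.trans h2)
    · exact hne e (h1.symm.trans h2)

open Classical in
/-- the cover of a base structure whose signed number of colourings is not divisible by `p` -/
theorem cover_EL {D C : Type} [Fintype U] [Fintype E] [Fintype D] [Fintype C] [Finite P]
    (p : ℕ) [Fact p.Prime] (hP : IsPGroup p P) (ρ : D ≃ C) (inc : U → D → E)
    (h : Inc tl hd inc) (hN : ¬ ((p : ℤ) ∣ NN ρ inc)) (ν : E → P) (hν : NoParallel tl hd ν) :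
    EL.EL (derived tl hd ν) (Fintype.card D) := by
  have := Fintype.ofFinite P
  let β : U → D → P := fun u i => if tl (inc u i) = u then 1 else (ν (inc u i))⁻¹
  have hmem : ∀ q : E × P, s((tl q.1, q.2), (hd q.1, q.2 * ν q.1)) ∈ (derived tl hd ν).edgeSet := by
    intro q
    rw [SimpleGraph.mem_edgeSet, derived_adj h.ne]
    exact Or.inl ⟨q.1, rfl, rfl, rfl⟩
  let ψ0 : E × P → (derived tl hd ν).edgeSet := fun q => ⟨_, hmem q⟩
  have hinj : Function.Injective ψ0 := by
    rintro ⟨e, g⟩ ⟨e', g'⟩ heq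
    have h1 := congrArg Subtype.val heq
    simp only [ψ0] at h1
    rw [Sym2.eq_iff] at h1
    rcases h1 with ⟨h1, h2⟩ | ⟨h1, h2⟩
    · simp only [Prod.mk.injEq] at h1 h2
      obtain ⟨a1, rfl⟩ := h1
      obtain ⟨a2, a3⟩ := h2
      have a4 := mul_left_cancel a3
      by_contra hne
      have hee : e ≠ e' := fun h' => hne (by rw [h'])
      exact (hν e e' hee).1 ⟨a1, a2, a4⟩
    · simp only [Prod.mk.injEq] at h1 h2
      obtain ⟨a1, a2⟩ := h1
      obtain ⟨a3, a4⟩ := h2
      by_cases hee : e = e'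
      · subst hee
        exact absurd a1 (h.ne e)
      · refine absurd ⟨a1, a3, ?_⟩ (hν e e' hee).2
        rw [a2] at a4
        have a5 : g' * (ν e' * ν e) = g' * 1 := by rw [← mul_assoc, a4, mul_one]
        have a6 := mul_left_cancel a5
        exact mul_eq_one_comm.1 a6
  have hsurj : Function.Surjective ψ0 := by
    rintro ⟨e, he⟩
    induction e using Sym2.ind with
    | _ v w =>
      rw [SimpleGraph.mem_edgeSet, derived_adj h.ne] at he
      rcases he with ⟨e, h1, h2, h3⟩ | ⟨e, h1, h2, h3⟩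
      · refine ⟨(e, v.2), Subtype.ext ?_⟩
        show s((tl e, v.2), (hd e, v.2 * ν e)) = s(v, w)
        rw [← h1, ← h2, ← h3]
      · refine ⟨(e, w.2), Subtype.ext ?_⟩
        show s((tl e, w.2), (hd e, w.2 * ν e)) = s(v, w)
        rw [← h1, ← h2, ← h3, Sym2.eq_swap]
  let ψ : E × P ≃ (derived tl hd ν).edgeSet := Equiv.ofBijective ψ0 ⟨hinj, hsurj⟩
  have hNN : NN ρ (linc inc β) ≠ 0 := lift_ne_zero p hP ρ inc β hN
  refine EL.sGRE (U × P) (E × P) D C ρ (linc inc β) (derived tl hd ν) ψ ?_ ?_ ?_ hNN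
  · rintro ⟨u, g⟩ i
    show (u, g) ∈ s((tl (inc u i), g * β u i), (hd (inc u i), g * β u i * ν (inc u i)))
    rw [Sym2.mem_iff]
    by_cases hu : tl (inc u i) = u
    · left
      have hb : β u i = 1 := by simp only [β]; rw [if_pos hu]
      rw [hb, mul_one, hu]
    · right
      have hu' : hd (inc u i) = u := (h.mem u i).resolve_left hu
      have hb : β u i = (ν (inc u i))⁻¹ := by simp only [β]; rw [if_neg hu]
      rw [hb, inv_mul_cancel_right, hu']
  · rintro ⟨u, g⟩ ⟨e, k⟩ hv
    have hv' : (u, g) ∈ s((tl e, k), (hd e, k * ν e)) := hv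
    rw [Sym2.mem_iff] at hv'
    rcases hv' with hv' | hv'
    · simp only [Prod.mk.injEq] at hv'
      obtain ⟨h1, rfl⟩ := hv'
      obtain ⟨i, hi⟩ := h.surj u e (Or.inl h1.symm)
      refine ⟨i, ?_⟩
      show (inc u i, g * β u i) = (e, g)
      have hb : β u i = 1 := by
        simp only [β]
        rw [if_pos (by rw [hi]; exact h1.symm)]
      rw [hb, mul_one, hi]
    · simp only [Prod.mk.injEq] at hv'
      obtain ⟨h1, rfl⟩ := hv'
      obtain ⟨i, hi⟩ := h.surj u e (Or.inr h1.symm)
      refine ⟨i, ?_⟩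
      show (inc u i, k * ν e * β u i) = (e, k)
      have hb : β u i = (ν e)⁻¹ := by
        simp only [β]
        rw [if_neg (by rw [hi, h1]; exact h.ne e), hi]
      rw [hb, mul_inv_cancel_right, hi]
  · rintro ⟨u, g⟩ i j hij
    exact h.inj u (congrArg Prod.fst hij)

end

end Pool.Agent.TH413.Cov
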