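import Pool.Agent.TH413.Cov

/-!
# The list edge colouring conjecture for the covers of a multigraph with a `p`-group
-/

set_option autoImplicit false

namespace Pool.Agent.TH413.Fin

open Finset Pool.Agent.W426.LE Pool.Agent.W862.LE Pool.Agent.TH413.PF Pool.Agent.TH413.Cov

section

variable {U E : Type} {tl hd : E → U}

/-- enumeration of the edges at the vertices -/
theorem exists_inc [Finite E] (hne : ∀ e, tl e ≠ hd e) (d : ℕ)
    (hreg : ∀ u, {e | tl e = u ∨ hd e = u}.ncard = d) :
    ∃ inc : U → Fin d → E, Inc tl hd inc := by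
  classical
  have h1 : ∀ u, Nonempty (Fin d ≃ {e | tl e = u ∨ hd e = u}) := by
    intro u
    have h2 : Nat.card {e | tl e = u ∨ hd e = u} = d := by
      rw [Nat.card_coe_set_eq]; exact hreg u
    exact ⟨(Finite.equivFinOfCardEq h2).symm⟩
  let F : ∀ u, Fin d ≃ {e | tl e = u ∨ hd e = u} := fun u => (h1 u).some
  exact ⟨fun u i => (F u i : E), hne, fun u i => (F u i).2,
    fun u e he => ⟨(F u).symm ⟨e, he⟩, by simp⟩,
    fun u i j hij => (F u).injective (Subtype.ext hij)⟩

variable {P : Type} [Group P]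

/-- the cover needs `d` colours -/
theorem not_colorable {d : ℕ} (hd1 : 1 ≤ d) {inc : U → Fin d → E} (h : Inc tl hd inc) (u : U)
    (ν : E → P) (hν : NoParallel tl hd ν) :
    ¬ (derived tl hd ν).lineGraph.Colorable (d - 1) := by
  classical
  rintro ⟨c⟩
  let β : U → Fin d → P := fun u i => if tl (inc u i) = u then 1 else (ν (inc u i))⁻¹
  have hmem : ∀ i, s((tl (inc u i), β u i), (hd (inc u i), β u i * ν (inc u i))) ∈
      (derived tl hd ν).edgeSet := by
    intro i
    rw [SimpleGraph.mem_edgeSet, derived_adj h.ne]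
    exact Or.inl ⟨inc u i, rfl, rfl, rfl⟩
  let f : Fin d → (derived tl hd ν).edgeSet := fun i => ⟨_, hmem i⟩
  have hv : ∀ i, ((u, (1 : P)) : U × P) ∈ (f i : Sym2 (U × P)) := by
    intro i
    show ((u, (1 : P)) : U × P) ∈ s((tl (inc u i), β u i), (hd (inc u i), β u i * ν (inc u i)))
    rw [Sym2.mem_iff]
    by_cases hu : tl (inc u i) = u
    · left
      simp only [β]
      rw [if_pos hu, hu]
    · right
      have hu' : hd (inc u i) = u := (h.mem u i).resolve_left hu
      simp only [β]
      rw [if_neg hu, inv_mul_cancel, hu']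
  have hinj : Function.Injective f := by
    intro i j hij
    by_contra hne
    have hee : inc u i ≠ inc u j := fun h' => hne (h.inj u h')
    have h1 := congrArg Subtype.val hij
    simp only [f] at h1
    rw [Sym2.eq_iff] at h1
    rcases h1 with ⟨h1, h2⟩ | ⟨h1, h2⟩
    · simp only [Prod.mk.injEq] at h1 h2
      obtain ⟨a1, a0⟩ := h1
      obtain ⟨a2, a3⟩ := h2
      rw [a0] at a3
      exact (hν _ _ hee).1 ⟨a1, a2, mul_left_cancel a3⟩
    · simp only [Prod.mk.injEq] at h1 h2
      obtain ⟨a1, a2⟩ := h1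
      obtain ⟨a3, a4⟩ := h2
      refine (hν _ _ hee).2 ⟨a1, a3, ?_⟩
      rw [a2] at a4
      have a5 : β u j * (ν (inc u j) * ν (inc u i)) = β u j * 1 := by
        rw [← mul_assoc, a4, mul_one]
      exact mul_eq_one_comm.1 (mul_left_cancel a5)
  have hcinj : Function.Injective (fun i => c (f i)) := by
    intro i j hij
    by_contra hne
    refine c.valid ?_ hij
    rw [SimpleGraph.lineGraph_adj_iff_exists]
    exact ⟨fun h' => hne (hinj h'), (u, 1), hv i, hv j⟩
  have h1 := Fintype.card_le_of_injective _ hcinj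
  rw [Fintype.card_fin, Fintype.card_fin] at h1
  omega

/-- a unique colouring up to permutations of the colours -/
theorem NN_unique [Fintype U] [Fintype E] {d : ℕ} {inc : U → Fin d → E} (h : Inc tl hd inc) (u0 : U)
    (x0 : E → Fin d) (hx0 : Proper tl hd x0)
    (huniq : ∀ x : E → Fin d, Proper tl hd x → ∃ σ : Equiv.Perm (Fin d), ∀ e, x e = σ (x0 e))
    (p : ℕ) (hp : p.Prime) (hdp : d < p) : ¬ ((p : ℤ) ∣ NN (Equiv.refl (Fin d)) inc) := by
  classical
  have hcard : ∀ e, Nat.card {q : U × Fin d // inc q.1 q.2 = e} = 2 := by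
    intro e
    have h1 : Nat.card {q : U × Fin d // inc q.1 q.2 = e} = Nat.card Bool := by
      obtain ⟨i, hi⟩ := h.surj (tl e) e (Or.inl rfl)
      obtain ⟨j, hj⟩ := h.surj (hd e) e (Or.inr rfl)
      refine (Nat.card_eq_of_bijective (fun b : Bool => if b = true then
        (⟨(hd e, j), hj⟩ : {q : U × Fin d // inc q.1 q.2 = e}) else ⟨(tl e, i), hi⟩) ⟨?_, ?_⟩).symm
      · intro b b' hb
        cases b <;> cases b'
        · rfl
        · exact absurd (congrArg (fun z => z.1.1) hb) (h.ne e)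
        · exact absurd (congrArg (fun z => z.1.1) hb).symm (h.ne e)
        · rfl
      · rintro ⟨⟨u, k⟩, hk⟩
        have hk' : inc u k = e := hk
        rcases h.mem u k with h2 | h2
        · rw [hk'] at h2
          subst h2
          refine ⟨false, Subtype.ext (Prod.ext rfl ?_)⟩
          exact h.inj _ (hi.trans hk'.symm)
        · rw [hk'] at h2
          subst h2
          refine ⟨true, Subtype.ext (Prod.ext rfl ?_)⟩
          exact h.inj _ (hj.trans hk'.symm)
    rw [h1]
    simp
  have hP0 : Abs.Prp inc x0 := (proper_iff h (Equiv.refl _) x0).2 hx0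
  have h1 := Abs.NN_eq (Equiv.refl (Fin d)) inc u0 hcard
  have hsub : ∀ z : Abs.XN (Equiv.refl (Fin d)) inc u0,
      z = Abs.nrm (Equiv.refl (Fin d)) inc u0 x0 hP0 := by
    intro z
    refine (Abs.nrm_unique (Equiv.refl (Fin d)) inc u0 x0 hP0 z ?_).symm
    exact huniq z.1 ((proper_iff h (Equiv.refl _) z.1).1 z.2.1)
  have h2 : ∑ z : Abs.XN (Equiv.refl (Fin d)) inc u0, Abs.wt (Equiv.refl (Fin d)) inc z.1 =
      Abs.wt (Equiv.refl (Fin d)) inc (Abs.nrm (Equiv.refl (Fin d)) inc u0 x0 hP0).1 := by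
    rw [Finset.sum_eq_single (Abs.nrm (Equiv.refl (Fin d)) inc u0 x0 hP0)]
    · intro b _ hb
      exact absurd (hsub b) hb
    · intro h'
      exact absurd (mem_univ _) h'
  rw [h1, h2, Fintype.card_fin]
  have h3 := Abs.wt_unit (Equiv.refl (Fin d)) inc
    (Abs.nrm (Equiv.refl (Fin d)) inc u0 x0 hP0).1 (Abs.nrm (Equiv.refl (Fin d)) inc u0 x0 hP0).2.1
  intro h4
  have h5 : (p : ℤ) ∣ (d.factorial : ℤ) := by
    rcases Int.isUnit_iff.1 h3 with h6 | h6
    · rwa [h6, mul_one] at h4
    · rw [h6] at h4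
      simpa using h4
  have h7 := (hp.dvd_factorial).1 (Int.natCast_dvd_natCast.1 h5)
  omega

end

end Pool.Agent.TH413.Fin
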