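import Pool.Agent.W862.LE.Abs

/-!
# Signs of the edge colourings of Pfaffian multigraphs

A multigraph is given by the ends `tl e`, `hd e` of its edges and an enumeration `inc u` of the
edges at every vertex `u`. If the orientation `tl, hd` is Pfaffian, then all proper edge colourings
with as many colours as there are edges at a vertex have the same sign.
-/

set_option autoImplicit false

namespace Pool.Agent.TH413.PF

open Finset Pool.Agent.W426.LE Pool.Agent.W862.LE

/-- `inc u` enumerates the edges at the vertex `u` of a loopless multigraph -/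
structure Inc {U E D : Type} (tl hd : E → U) (inc : U → D → E) : Prop where
  ne : ∀ e, tl e ≠ hd e
  mem : ∀ u i, tl (inc u i) = u ∨ hd (inc u i) = u
  surj : ∀ u e, (tl e = u ∨ hd e = u) → ∃ i, inc u i = e
  inj : ∀ u, Function.Injective (inc u)

/-- perfect matchings -/
def PM {U E : Type} (tl hd : E → U) (M : Set E) : Prop :=
  ∀ u, ∃! e, e ∈ M ∧ (tl e = u ∨ hd e = u)

open Classical in
/-- Pfaffian orientations: all perfect matchings have the same sign -/
def Pfaffian {U E : Type} [Fintype U] (tl hd : E → U) : Prop :=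
  ∀ M M' : Set E, PM tl hd M → PM tl hd M' → ∀ (φ : M ≃ M') (π : Equiv.Perm U),
    (∀ e : M, π (tl e) = tl (φ e) ∧ π (hd e) = hd (φ e)) → Equiv.Perm.sign π = 1

section

variable {U E D C : Type} {tl hd : E → U} {inc : U → D → E}

/-- the two ends -/
def en (tl hd : E → U) (b : Bool) (e : E) : U := if b = true then hd e else tl e

lemma mem_iff (h : Inc tl hd inc) (u : U) (e : E) :
    (tl e = u ∨ hd e = u) ↔ ∃ i, inc u i = e := by
  constructor
  · exact h.surj u e
  · rintro ⟨i, rfl⟩
    exact h.mem u i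

lemma amap_bij (h : Inc tl hd inc) (x : E → C) (hx : Abs.Prp inc x) :
    Function.Bijective (fun q : E × Bool => (en tl hd q.2 q.1, x q.1)) := by
  constructor
  · rintro ⟨e, b⟩ ⟨e', b'⟩ hq
    simp only [Prod.mk.injEq] at hq
    obtain ⟨h1, h2⟩ := hq
    have m1 : tl e = en tl hd b e ∨ hd e = en tl hd b e := by cases b <;> simp [en]
    have m2 : tl e' = en tl hd b e ∨ hd e' = en tl hd b e := by
      rw [h1]; cases b' <;> simp [en]
    obtain ⟨i, hi⟩ := h.surj _ _ m1
    obtain ⟨j, hj⟩ := h.surj _ _ m2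
    have hij : i = j := by
      apply (hx (en tl hd b e)).1
      show x (inc _ i) = x (inc _ j)
      rw [hi, hj, h2]
    subst hij
    have hee : e = e' := hi.symm.trans hj
    subst hee
    have hbb : b = b' := by
      cases b <;> cases b' <;> simp_all [en, h.ne e, (h.ne e).symm]
    rw [hbb]
  · rintro ⟨u, c⟩
    obtain ⟨i, hi⟩ := (hx u).2 c
    rcases h.mem u i with h1 | h1
    · exact ⟨(inc u i, false), Prod.ext (by simpa [en] using h1) hi⟩
    · exact ⟨(inc u i, true), Prod.ext (by simpa [en] using h1) hi⟩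

/-- darts and pairs (vertex, colour) -/
noncomputable def amap (h : Inc tl hd inc) (x : E → C) (hx : Abs.Prp inc x) : E × Bool ≃ U × C :=
  Equiv.ofBijective _ (amap_bij h x hx)

lemma amap_apply (h : Inc tl hd inc) (x : E → C) (hx : Abs.Prp inc x) (e : E) (b : Bool) :
    amap h x hx (e, b) = (en tl hd b e, x e) := rfl

lemma pm_of (h : Inc tl hd inc) (x : E → C) (hx : Abs.Prp inc x) (c : C) :
    PM tl hd {e | x e = c} := by
  intro u
  obtain ⟨i, hi⟩ := (hx u).2 c
  refine ⟨inc u i, ⟨hi, h.mem u i⟩, ?_⟩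
  rintro e ⟨he, hu⟩
  obtain ⟨j, rfl⟩ := h.surj u e hu
  congr 1
  exact (hx u).1 ((he : x (inc u j) = c).trans (hi : x (inc u i) = c).symm)

variable [Fintype U] [Fintype E] [Fintype D] [Fintype C]

open Classical in
lemma card_class (h : Inc tl hd inc) (x : E → C) (hx : Abs.Prp inc x) (c : C) :
    Fintype.card {e // x e = c} * 2 = Fintype.card U := by
  have h1 : Fintype.card ({e // x e = c} × Bool) = Fintype.card U := by
    refine Fintype.card_of_bijective (f := fun q => en tl hd q.2 q.1.1) ⟨?_, ?_⟩
    · rintro ⟨⟨e, he⟩, b⟩ ⟨⟨e', he'⟩, b'⟩ hq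
      have h2 : amap h x hx (e, b) = amap h x hx (e', b') := by
        rw [amap_apply, amap_apply]
        exact Prod.ext hq (he.trans he'.symm)
      have h3 := (amap h x hx).injective h2
      simp only [Prod.mk.injEq] at h3
      obtain ⟨rfl, rfl⟩ := h3
      rfl
    · intro u
      obtain ⟨⟨e, b⟩, hq⟩ := (amap h x hx).surjective (u, c)
      rw [amap_apply, Prod.mk.injEq] at hq
      exact ⟨(⟨e, hq.2⟩, b), hq.1⟩
  rw [← h1, Fintype.card_prod, Fintype.card_bool]

open Classical in
lemma exists_phi (h : Inc tl hd inc) (x y : E → C) (hx : Abs.Prp inc x) (hy : Abs.Prp inc y) :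
    ∃ φ : Equiv.Perm E, ∀ e, y (φ e) = x e := by
  have hc : ∀ c, Fintype.card {e // x e = c} = Fintype.card {e // y e = c} := by
    intro c
    have h1 := card_class h x hx c
    have h2 := card_class h y hy c
    omega
  let ψ : ∀ c, {e // x e = c} ≃ {e // y e = c} := fun c => Fintype.equivOfCardEq (hc c)
  refine ⟨(Equiv.sigmaFiberEquiv x).symm.trans
    ((Equiv.sigmaCongrRight ψ).trans (Equiv.sigmaFiberEquiv y)), fun e => ?_⟩
  exact (ψ (x e) ⟨e, rfl⟩).2

open Classical in
/-- the permutation of the pairs (vertex, colour) that moves `x` to `y` is even -/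
theorem sign_tmap (h : Inc tl hd inc) (hpf : Pfaffian tl hd) (x y : E → C)
    (hx : Abs.Prp inc x) (hy : Abs.Prp inc y) :
    Equiv.Perm.sign ((amap h x hx).symm.trans (amap h y hy)) = 1 := by
  obtain ⟨φ, hφ⟩ := exists_phi h x y hx hy
  let q : Equiv.Perm (E × Bool) := Equiv.prodCongrLeft (fun _ : Bool => φ)
  have hq : ∀ e b, q (e, b) = (φ e, b) := fun _ _ => rfl
  let R : Equiv.Perm (U × C) := (amap h x hx).symm.trans (q.trans (amap h y hy))
  have hR : ∀ e b, R (en tl hd b e, x e) = (en tl hd b (φ e), x e) := by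
    intro e b
    show amap h y hy (q ((amap h x hx).symm (en tl hd b e, x e))) = _
    rw [← amap_apply h x hx e b, Equiv.symm_apply_apply, hq, amap_apply, hφ]
  have hR2 : ∀ u c, (R (u, c)).2 = c := by
    intro u c
    obtain ⟨⟨e, b⟩, he⟩ := (amap h x hx).surjective (u, c)
    rw [amap_apply] at he
    rw [← he, hR]
    exact congrArg Prod.snd he
  have hπ : ∀ c, Function.Bijective (fun u => (R (u, c)).1) := by
    intro c
    refine Finite.injective_iff_bijective.1 ?_
    intro u u' huu
    have h1 : R (u, c) = R (u', c) := Prod.ext huu ((hR2 u c).trans (hR2 u' c).symm)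
    have h2 := R.injective h1
    exact congrArg Prod.fst h2
  let π : C → Equiv.Perm U := fun c => Equiv.ofBijective _ (hπ c)
  have hπa : ∀ c u, π c u = (R (u, c)).1 := fun _ _ => rfl
  have hRπ : R = Equiv.prodCongrLeft π := by
    refine Equiv.ext ?_
    rintro ⟨u, c⟩
    exact Prod.ext rfl (hR2 u c)
  have hsR : Equiv.Perm.sign R = 1 := by
    rw [hRπ, Equiv.Perm.sign_prodCongrLeft]
    refine Finset.prod_eq_one fun c _ => ?_
    refine hpf {e | x e = c} {e | y e = c} (pm_of h x hx c) (pm_of h y hy c)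
      { toFun := fun e => ⟨φ e.1, (hφ e.1).trans e.2⟩
        invFun := fun e => ⟨φ.symm e.1, by
          have h1 := hφ (φ.symm e.1)
          rw [φ.apply_symm_apply] at h1
          exact h1.symm.trans e.2⟩
        left_inv := fun e => Subtype.ext (φ.symm_apply_apply _)
        right_inv := fun e => Subtype.ext (φ.apply_symm_apply _) } (π c) ?_
    rintro ⟨e, he⟩
    have he' : x e = c := he
    constructor
    · show (R (tl e, c)).1 = tl (φ e)
      have h1 := hR e false
      rw [he'] at h1
      exact congrArg Prod.fst h1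
    · show (R (hd e, c)).1 = hd (φ e)
      have h1 := hR e true
      rw [he'] at h1
      exact congrArg Prod.fst h1
  have hsq : Equiv.Perm.sign q = 1 := by
    rw [Equiv.Perm.sign_prodCongrLeft]
    rw [Finset.prod_const, Finset.card_univ, Fintype.card_bool, sq]
    exact Int.units_mul_self _
  have hfac : R = ((amap h x hx).symm.trans (amap h y hy) : Equiv.Perm (U × C)) *
      (amap h x hx).permCongr q := by
    refine Equiv.ext fun z => ?_
    show amap h y hy (q ((amap h x hx).symm z)) =
      amap h y hy ((amap h x hx).symm ((amap h x hx) (q ((amap h x hx).symm z))))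
    rw [Equiv.symm_apply_apply]
  rw [hfac, Equiv.Perm.sign_mul, Equiv.Perm.sign_permCongr, hsq, mul_one] at hsR
  exact hsR

open Classical in
/-- all proper colourings have the same sign -/
theorem wt_eq (ρ : D ≃ C) (h : Inc tl hd inc) (hpf : Pfaffian tl hd) (x y : E → C)
    (hx : Abs.Prp inc x) (hy : Abs.Prp inc y) : Abs.wt ρ inc x = Abs.wt ρ inc y := by
  have hT := sign_tmap h hpf x y hx hy
  let X : ∀ u, D ≃ C := fun u => Equiv.ofBijective _ (hx u)
  let Y : ∀ u, D ≃ C := fun u => Equiv.ofBijective _ (hy u)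
  have hTe : ((amap h x hx).symm.trans (amap h y hy) : Equiv.Perm (U × C)) =
      Equiv.prodCongrRight (fun u => ((X u).symm.trans (Y u) : Equiv.Perm C)) := by
    refine Equiv.ext ?_
    rintro ⟨u, c⟩
    obtain ⟨i, rfl⟩ := (X u).surjective c
    have e1 : ∃ b, en tl hd b (inc u i) = u := by
      rcases h.mem u i with h1 | h1
      · exact ⟨false, by simpa [en] using h1⟩
      · exact ⟨true, by simpa [en] using h1⟩
    obtain ⟨b, hb⟩ := e1
    have e2 : ((u, X u i) : U × C) = amap h x hx (inc u i, b) := by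
      rw [amap_apply, hb]
      rfl
    show amap h y hy ((amap h x hx).symm (u, X u i)) = (u, Y u ((X u).symm (X u i)))
    rw [Equiv.symm_apply_apply, e2, Equiv.symm_apply_apply, amap_apply, hb]
    rfl
  rw [hTe, Equiv.Perm.sign_prodCongrRight] at hT
  have hprod : Abs.wt ρ inc x * Abs.wt ρ inc y = 1 := by
    unfold Abs.wt
    rw [← Finset.prod_mul_distrib]
    have h3 : ∀ u ∈ (univ : Finset U), sg ρ (fun i => x (inc u i)) * sg ρ (fun i => y (inc u i)) =
        ((Equiv.Perm.sign ((X u).symm.trans (Y u) : Equiv.Perm C) : ℤˣ) : ℤ) := by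
      intro u _
      have g1 := sg_of_bij ρ _ (hx u)
      have g2 := sg_of_bij ρ _ (hy u)
      rw [g1, g2, ← Units.val_mul, ← Equiv.Perm.sign_mul]
      congr 1
      have g3 : Equiv.Perm.sign ((X u).symm.trans (Y u) : Equiv.Perm C) =
          Equiv.Perm.sign ((X u).symm.permCongr ((X u).symm.trans (Y u) : Equiv.Perm C)) := by
        rw [Equiv.Perm.sign_permCongr]
      have g4 : (X u).symm.permCongr ((X u).symm.trans (Y u) : Equiv.Perm C) =
          ((X u).trans ρ.symm : Equiv.Perm D)⁻¹ * ((Y u).trans ρ.symm : Equiv.Perm D) := by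
        refine Equiv.ext fun i => ?_
        show (X u).symm (Y u ((X u).symm (X u i))) = (X u).symm (ρ (ρ.symm (Y u i)))
        rw [Equiv.symm_apply_apply, Equiv.apply_symm_apply]
      rw [g3, g4, Equiv.Perm.sign_mul, Equiv.Perm.sign_mul, Equiv.Perm.sign_inv]
    rw [Finset.prod_congr rfl h3]
    have h4 := congrArg (fun z : ℤˣ => (z : ℤ)) hT
    simpa using h4
  have hxu := Abs.wt_unit ρ inc x hx
  have hyu := Abs.wt_unit ρ inc y hy
  rcases Int.isUnit_iff.1 hxu with h1 | h1 <;> rcases Int.isUnit_iff.1 hyu with h2 | h2 <;>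
    rw [h1, h2] at hprod ⊢ <;> norm_num at hprod

end

end Pool.Agent.TH413.PF
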